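import Pool.Agent.Helper32.PD.Defs
import Pool.Agent.Helper32.PD.Lists
import Pool.Agent.Helper92.PD.HubPath
import Pool.Agent.Helper39.PD.Sys1r
import Pool.Agent.Helper24.PD.Claw

/-!
# PD-10c: links between two references of the coherent system
-/

set_option autoImplicit false

namespace Pool.Agent.Helper12.PD

open Finset
open scoped Classical
open Pool.Agent.Helper32.PD

variable {V : Type}

section basic

variable {F : SimpleGraph V} {Λ : Type} {I Q Qs : Λ → Finset V} {f : Λ → V → V}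
  {q r : ℕ} {ξ lam θ : ℝ} {n : ℕ}

/-- leaves at different hubs are different -/
theorem leaf_ne (H : Hubs F I Q f) {l l' : Λ} (hl : l ≠ l') {x x' : V} (hx : x ∈ Q l)
    (hx' : x' ∈ Q l') : f l x ≠ f l' x' := by
  intro he
  obtain ⟨y, hy, hadj⟩ := H.leaf_adj l x hx
  have := (H.leaf_anti l' l hl.symm x' hx' y hy).2
  rw [← he] at this
  exact this hadj

/-- the list `L` consists of tokens of `T` and hub vertices of hubs in `N` -/
def Sup (I : Λ → Finset V) (f : Λ → V → V) (T : Finset (Λ × V)) (N : Λ → Prop) (L : List V) :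
    Prop :=
  ∀ v ∈ L, (∃ u ∈ T, v = f u.1 u.2) ∨ ∃ l, N l ∧ v ∈ I l

theorem antiL_of_sup (H : Hubs F I Q f) {T T' : Finset (Λ × V)} {N N' : Λ → Prop}
    {L L' : List V} (hL : Sup I f T N L) (hL' : Sup I f T' N' L')
    (hT : ∀ u ∈ T, u.2 ∈ Q u.1 ∧ N u.1) (hT' : ∀ u ∈ T', u.2 ∈ Q u.1 ∧ N' u.1)
    (hN : ∀ l, N l → ¬ N' l) (hfar : ∀ u ∈ T, ∀ u' ∈ T', ¬ F.Adj (f u.1 u.2) (f u'.1 u'.2)) :
    AntiL F L L' := by
  intro v hv w hw
  rcases hL v hv with ⟨u, hu, rfl⟩ | ⟨l, hl, hvl⟩ <;>
    rcases hL' w hw with ⟨u', hu', rfl⟩ | ⟨l', hl', hwl⟩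
  · have hne : u.1 ≠ u'.1 := fun he => hN _ (hT u hu).2 (he ▸ (hT' u' hu').2)
    exact ⟨leaf_ne H hne (hT u hu).1 (hT' u' hu').1, hfar u hu u' hu'⟩
  · have hne : u.1 ≠ l' := fun he => hN _ (hT u hu).2 (he ▸ hl')
    exact H.leaf_anti u.1 l' hne u.2 (hT u hu).1 w hwl
  · have hne : u'.1 ≠ l := fun he => hN _ hl (he ▸ (hT' u' hu').2)
    obtain ⟨h1, h2⟩ := H.leaf_anti u'.1 l hne u'.2 (hT' u' hu').1 v hvl
    exact ⟨h1.symm, fun hh => h2 hh.symm⟩
  · have hne : l ≠ l' := fun he => hN _ hl (he ▸ hl')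
    exact H.hub_anti l l' hne v hvl w hwl

/-- The points of a large set whose leaves are far from the tokens at the other hubs. -/
theorem far_card (S : Sys1 F I Q f ξ lam θ n) (U : Finset (Λ × V)) (hU : ∀ u ∈ U, u.2 ∈ Q u.1)
    (l : Λ) (P : Finset V) (hP : P ⊆ Q l) :
    (P.card : ℝ) - U.card * (θ * n) ≤
      ((P.filter fun y => ∀ u ∈ U, u.1 ≠ l → ¬ F.Adj (f l y) (f u.1 u.2)).card : ℝ) := by
  have hsub : P ⊆ (P.filter fun y => ∀ u ∈ U, u.1 ≠ l → ¬ F.Adj (f l y) (f u.1 u.2)) ∪
      (U.filter fun u => u.1 ≠ l).biUnion fun u => (Q l).filter fun y => F.Adj (f u.1 u.2) (f l y)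
      := by
    intro y hy
    rw [mem_union]
    by_cases hb : ∀ u ∈ U, u.1 ≠ l → ¬ F.Adj (f l y) (f u.1 u.2)
    · exact Or.inl (mem_filter.2 ⟨hy, hb⟩)
    · push Not at hb
      obtain ⟨u, hu, hul, hadj⟩ := hb
      refine Or.inr (mem_biUnion.2 ⟨u, mem_filter.2 ⟨hu, hul⟩, mem_filter.2 ⟨hP hy, hadj.symm⟩⟩)
  have h1 := (card_le_card hsub).trans (card_union_le _ _)
  have h2 : (((U.filter fun u => u.1 ≠ l).biUnion fun u =>
      (Q l).filter fun y => F.Adj (f u.1 u.2) (f l y)).card : ℝ) ≤ U.card * (θ * n) := by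
    calc (((U.filter fun u => u.1 ≠ l).biUnion fun u =>
          (Q l).filter fun y => F.Adj (f u.1 u.2) (f l y)).card : ℝ)
        ≤ ((∑ u ∈ U.filter fun u => u.1 ≠ l,
            ((Q l).filter fun y => F.Adj (f u.1 u.2) (f l y)).card : ℕ) : ℝ) := by
          exact_mod_cast card_biUnion_le
      _ = ∑ u ∈ U.filter fun u => u.1 ≠ l,
            (((Q l).filter fun y => F.Adj (f u.1 u.2) (f l y)).card : ℝ) := by push_cast; rfl
      _ ≤ ∑ u ∈ U.filter fun u => u.1 ≠ l, θ * n := by
          refine sum_le_sum fun u hu => ?_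
          obtain ⟨hu1, hu2⟩ := mem_filter.1 hu
          exact S.sparse u.1 l hu2 u.2 (hU u hu1)
      _ ≤ ∑ u ∈ U, θ * n := by
          by_cases hemp : (U.filter fun u => u.1 ≠ l) = ∅
          · rw [hemp, sum_empty]
            refine sum_nonneg fun u hu => ?_
            exact le_trans (Nat.cast_nonneg _) (S.single u.1 u.2 (hU u hu))
          · obtain ⟨u, hu⟩ := Finset.nonempty_iff_ne_empty.2 hemp
            have h0 : 0 ≤ θ * n :=
              le_trans (Nat.cast_nonneg _) (S.single u.1 u.2 (hU u (mem_filter.1 hu).1))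
            exact sum_le_sum_of_subset_of_nonneg (filter_subset _ _) fun _ _ _ => h0
      _ = U.card * (θ * n) := by rw [sum_const, nsmul_eq_mul]
  have h3 : (P.card : ℝ) ≤
      ((P.filter fun y => ∀ u ∈ U, u.1 ≠ l → ¬ F.Adj (f l y) (f u.1 u.2)).card : ℝ) +
      (((U.filter fun u => u.1 ≠ l).biUnion fun u =>
      (Q l).filter fun y => F.Adj (f u.1 u.2) (f l y)).card : ℝ) := by exact_mod_cast h1
  linarith

/-- the path through one hub -/
theorem hp_hub (H : Hubs F I Q f) {l : Λ} {x y : V} (hx : x ∈ Q l) (hy : y ∈ Q l)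
    (hne : f l y ≠ f l x) : HubPath F (I l) (f l x) (f l y) (hp F (I l) (f l x) (f l y)) := by
  obtain ⟨a, ha, haa⟩ := H.leaf_adj l x hx
  obtain ⟨b, hb, hbb⟩ := H.leaf_adj l y hy
  exact hp_spec F (H.conn l) (H.leaf_not l x hx) (H.leaf_not l y hy) hne.symm ⟨a, ha, haa⟩
    ⟨b, hb, hbb⟩

/-- The crossing between two references at different hubs. -/
theorem crossing (S : Sys1r F I Q Qs f q r ξ lam θ n) (U : Finset (Λ × V))
    (hU : ∀ u ∈ U, u.2 ∈ Q u.1) (hc : lam * n + U.card * (θ * n) ≤ ξ / (2 * q) * n)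
    {h h' : Λ} (hne : h ≠ h') {x x' : V} (hx : x ∈ Qs h) (hx' : x' ∈ Qs h')
    (hxU : (h, x) ∈ U) (hxU' : (h', x') ∈ U) (hxx : ¬ F.Adj (f h x) (f h' x')) :
    ∃ (C : List V) (y y' : V), y ∈ Q h ∧ y' ∈ Q h' ∧ C.length % q = (2 * r + 2) % q ∧
      IPath F (f h x :: (C ++ [f h' x'])) ∧
      Sup I f {(h, y), (h', y')} (fun l => l = h ∨ l = h') C ∧
      (∀ u ∈ U, u.1 ≠ h → ¬ F.Adj (f h y) (f u.1 u.2)) ∧
      ∀ u ∈ U, u.1 ≠ h' → ¬ F.Adj (f h' y') (f u.1 u.2) := by
  have H := S.sys.hubs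
  have hxQ := S.sub h hx
  have hxQ' := S.sub h' hx'
  have h1 := far_card S.sys U hU h _ (filter_subset
    (fun y => f h y ≠ f h x ∧ (hp F (I h) (f h x) (f h y)).length % q = r) (Q h))
  have h2 := far_card S.sys U hU h' _ (filter_subset
    (fun y => f h' y ≠ f h' x' ∧ (hp F (I h') (f h' x') (f h' y)).length % q = r) (Q h'))
  have h3 := S.pop h x hx
  have h4 := S.pop h' x' hx'
  obtain ⟨y, hy, y', hy', hadj⟩ := S.sys.coh h h' hne _
    ((filter_subset _ _).trans (filter_subset _ _)) _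
    ((filter_subset _ _).trans (filter_subset _ _)) (by linarith) (by linarith)
  obtain ⟨hy1, hyfar⟩ := mem_filter.1 hy
  obtain ⟨hyQ, hyne, hyr⟩ := mem_filter.1 hy1
  obtain ⟨hy1', hyfar'⟩ := mem_filter.1 hy'
  obtain ⟨hyQ', hyne', hyr'⟩ := mem_filter.1 hy1'
  have hP := hp_hub H hxQ hyQ hyne
  have hP' := hp_hub H hxQ' hyQ' hyne'
  set A := hp F (I h) (f h x) (f h y) with hA
  set A' := hp F (I h') (f h' x') (f h' y') with hA'
  refine ⟨A ++ f h y :: f h' y' :: A'.reverse, y, y', hyQ, hyQ', ?_, ?_, ?_, hyfar, hyfar'⟩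
  · simp only [List.length_append, List.length_cons, List.length_reverse]
    have e1 : A.length + (A'.length + 1 + 1) = A.length + (A'.length + 2) := by ring
    rw [e1, Nat.add_mod, Nat.add_mod A'.length 2, hyr, hyr']
    simp only [Nat.add_mod_mod, ← Nat.add_assoc]
    ring_nf
  · have e : f h x :: (A ++ f h y :: f h' y' :: A'.reverse ++ [f h' x']) =
        (f h x :: A) ++ f h y :: f h' y' :: (A'.reverse ++ [f h' x']) := by simp
    rw [e]
    have hr : IPath F (f h' y' :: (A'.reverse ++ [f h' x'])) := by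
      have := ipath_reverse hP'.2
      simpa using this
    have hl : IPath F ((f h x :: A) ++ [f h y]) := by simpa using hP.2
    have hyx' : f h y ≠ f h' x' ∧ ¬ F.Adj (f h y) (f h' x') :=
      ⟨leaf_ne H hne hyQ hxQ', hyfar _ hxU' hne.symm⟩
    have hxy' : f h x ≠ f h' y' ∧ ¬ F.Adj (f h x) (f h' y') :=
      ⟨leaf_ne H hne hxQ hyQ', fun hh => hyfar' _ hxU hne hh.symm⟩
    refine ipath_join hl hr hadj ?_ ?_
    · intro v hv w hw
      simp only [List.mem_cons, List.mem_append, List.mem_reverse, List.not_mem_nil,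
        or_false] at hv hw
      rcases hv with rfl | hv <;> rcases hw with rfl | hw | rfl
      · exact hxy'
      · exact H.leaf_anti h h' hne x hxQ w (hP'.1 w hw)
      · exact ⟨leaf_ne H hne hxQ hxQ', hxx⟩
      · obtain ⟨h5, h6⟩ := H.leaf_anti h' h hne.symm y' hyQ' v (hP.1 v hv)
        exact ⟨h5.symm, fun hh => h6 hh.symm⟩
      · exact H.hub_anti h h' hne v (hP.1 v hv) w (hP'.1 w hw)
      · obtain ⟨h5, h6⟩ := H.leaf_anti h' h hne.symm x' hxQ' v (hP.1 v hv)
        exact ⟨h5.symm, fun hh => h6 hh.symm⟩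
    · intro v hv w hw
      simp only [List.mem_cons, List.mem_append, List.mem_reverse, List.not_mem_nil,
        or_false] at hv hw
      subst hv
      rcases hw with hw | rfl
      · exact H.leaf_anti h h' hne y hyQ w (hP'.1 w hw)
      · exact hyx'
  · intro v hv
    simp only [List.mem_cons, List.mem_append, List.mem_reverse] at hv
    rcases hv with hv | rfl | rfl | hv
    · exact Or.inr ⟨h, Or.inl rfl, hP.1 v hv⟩
    · exact Or.inl ⟨(h, y), by simp, rfl⟩
    · exact Or.inl ⟨(h', y'), by simp, rfl⟩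
    · exact Or.inr ⟨h', Or.inr rfl, hP'.1 v hv⟩

/-- The connector on three fresh hubs. -/
theorem connector (S : Sys1r F I Q Qs f q r ξ lam θ n) {K : ℕ} (hn : 1 ≤ n) (hlam : 0 < lam)
    (hθ : 0 ≤ θ) (hsmall : 4 * lam + (K + 5) * θ ≤ ξ / (2 * q)) (U : Finset (Λ × V))
    (hU : ∀ u ∈ U, u.2 ∈ Q u.1) (hK : U.card ≤ K) (g : Fin 3 → Λ) (hg : Function.Injective g)
    (hfresh : ∀ u ∈ U, ∀ κ, u.1 ≠ g κ) {s : ℕ} (hs : s = 2 ∨ s = 3) :
    ∃ (i j k : Fin 3) (z z' : V) (M : List V) (T : Finset (Λ × V)), i ≠ j ∧ k ≠ i ∧ k ≠ j ∧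
      z ∈ Qs (g i) ∧ z' ∈ Qs (g j) ∧ M.length + 2 = s ∧ T.card ≤ 1 ∧
      (∀ u ∈ T, u.2 ∈ Q u.1 ∧ u.1 = g k) ∧ (∀ v ∈ M, ∃ u ∈ T, v = f u.1 u.2) ∧
      IPath F (f (g i) z :: (M ++ [f (g j) z'])) ∧
      (∀ u ∈ U, ¬ F.Adj (f (g i) z) (f u.1 u.2)) ∧ (∀ u ∈ U, ¬ F.Adj (f (g j) z') (f u.1 u.2)) ∧
      ∀ t ∈ T, ∀ u ∈ U, ¬ F.Adj (f t.1 t.2) (f u.1 u.2) := by
  have H := S.sys.hubs
  have hn' : (1 : ℝ) ≤ n := by exact_mod_cast hn
  have hξ : 0 < ξ := by
    have h1 : 0 ≤ ((K : ℝ) + 5) * θ := mul_nonneg (by positivity) hθ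
    have h2 : 0 < ξ / (2 * q) := by linarith
    by_contra h3
    push Not at h3
    have h4 := div_nonpos_of_nonpos_of_nonneg h3 (by positivity : (0 : ℝ) ≤ 2 * q)
    linarith
  rcases hs with rfl | rfl
  · have h01 : g 0 ≠ g 1 := fun he => by simpa using hg he
    have hKK : (U.card : ℝ) ≤ K := by exact_mod_cast hK
    have hsm : lam * n + U.card * (θ * n) ≤ ξ / (2 * q) * n := by
      have h1 : (U.card : ℝ) * θ ≤ (K + 5) * θ :=
        mul_le_mul_of_nonneg_right (by linarith) hθ
      have h2 : lam + U.card * θ ≤ ξ / (2 * q) := by linarith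
      calc lam * n + U.card * (θ * n) = (lam + U.card * θ) * n := by ring
        _ ≤ ξ / (2 * q) * n := mul_le_mul_of_nonneg_right h2 (by linarith)
    have h1 := far_card S.sys U hU (g 0) _ (S.sub (g 0))
    have h2 := far_card S.sys U hU (g 1) _ (S.sub (g 1))
    have h3 := S.size (g 0)
    have h4 := S.size (g 1)
    obtain ⟨z, hz, z', hz', hadj⟩ := S.sys.coh (g 0) (g 1) h01 _
      ((filter_subset _ _).trans (S.sub (g 0))) _
      ((filter_subset _ _).trans (S.sub (g 1))) (by linarith) (by linarith)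
    obtain ⟨hz1, hz2⟩ := mem_filter.1 hz
    obtain ⟨hz1', hz2'⟩ := mem_filter.1 hz'
    refine ⟨0, 1, 2, z, z', [], ∅, by decide, by decide, by decide, hz1, hz1', rfl, by simp,
      by simp, by simp, ?_, fun u hu => hz2 u hu (hfresh u hu 0),
      fun u hu => hz2' u hu (hfresh u hu 1), by simp⟩
    simpa using ipath_pair F hadj
  · obtain ⟨π, x, hx, h01, h02, h12, hfar⟩ := exists_claw F I Q Qs f q r ξ lam θ n K hn hlam hξ S
      hsmall U hU hK g hg hfresh
    have hne : g (π 1) ≠ g (π 2) := fun he => by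
      have := π.injective (hg he)
      simp at this
    refine ⟨π 1, π 2, π 0, x (π 1), x (π 2), [f (g (π 0)) (x (π 0))],
      {(g (π 0), x (π 0))}, fun he => by simpa using π.injective he,
      fun he => by simpa using π.injective he, fun he => by simpa using π.injective he,
      hx _, hx _, rfl, by simp, ?_, ?_, ?_,
      fun u hu => (hfar _ u hu).2, fun u hu => (hfar _ u hu).2, ?_⟩
    · intro u hu
      rw [mem_singleton] at hu
      subst hu
      exact ⟨S.sub _ (hx _), rfl⟩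
    · intro v hv
      rw [List.mem_singleton] at hv
      exact ⟨_, mem_singleton_self _, hv⟩
    · have h1 : IPath F ([f (g (π 1)) (x (π 1))] ++ [f (g (π 0)) (x (π 0))]) :=
        ipath_pair F h01.symm
      have h2 : IPath F (f (g (π 0)) (x (π 0)) :: [f (g (π 2)) (x (π 2))]) := ipath_pair F h02
      have h3 := ipath_glue h1 h2 (by
        intro v hv w hw
        rw [List.mem_singleton] at hv hw
        subst hv hw
        exact ⟨leaf_ne H hne (S.sub _ (hx _)) (S.sub _ (hx _)), h12⟩)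
      simpa using h3
    · intro t ht u hu
      rw [mem_singleton] at ht
      subst ht
      exact (hfar _ u hu).2

theorem Sup.mono {T T' : Finset (Λ × V)} {N N' : Λ → Prop} {L : List V} (h : Sup I f T N L)
    (hT : T ⊆ T') (hN : ∀ l, N l → N' l) : Sup I f T' N' L := by
  intro v hv
  rcases h v hv with ⟨u, hu, he⟩ | ⟨l, hl, he⟩
  · exact Or.inl ⟨u, hT hu, he⟩
  · exact Or.inr ⟨l, hN l hl, he⟩

theorem Sup.append {T : Finset (Λ × V)} {N : Λ → Prop} {L L' : List V} (h : Sup I f T N L)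
    (h' : Sup I f T N L') : Sup I f T N (L ++ L') := by
  intro v hv
  rcases List.mem_append.1 hv with hv | hv
  · exact h v hv
  · exact h' v hv

theorem Sup.cons {T : Finset (Λ × V)} {N : Λ → Prop} {L : List V} {u : Λ × V} (hu : u ∈ T)
    (h : Sup I f T N L) : Sup I f T N (f u.1 u.2 :: L) := by
  intro v hv
  rcases List.mem_cons.1 hv with rfl | hv
  · exact Or.inl ⟨u, hu, rfl⟩
  · exact h v hv

theorem Sup.nil {T : Finset (Λ × V)} {N : Λ → Prop} : Sup I f T N [] := by
  intro v hv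
  simp at hv

/-- A chain of `t` connectors and `t + 1` crossings. -/
theorem chain (S : Sys1r F I Q Qs f q r ξ lam θ n) (hn : 1 ≤ n) (hlam : 0 < lam) (hθ : 0 ≤ θ)
    {s : ℕ} (hs : s = 2 ∨ s = 3) (t : ℕ) :
    ∀ (K : ℕ) (U : Finset (Λ × V)) (h : Λ) (x : V) (h' : Λ) (x' : V) (G : ℕ → Λ),
      4 * lam + (K + 5 * t + 5) * θ ≤ ξ / (2 * q) → (∀ u ∈ U, u.2 ∈ Q u.1) → U.card ≤ K →
      h ≠ h' → x ∈ Qs h → x' ∈ Qs h' → (h, x) ∈ U → (h', x') ∈ U → ¬ F.Adj (f h x) (f h' x') →
      (∀ i j, i < 3 * t → j < 3 * t → G i = G j → i = j) →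
      (∀ u ∈ U, ∀ j < 3 * t, u.1 ≠ G j) →
      ∃ (B : List V) (U' : Finset (Λ × V)), U'.card ≤ 5 * t + 2 ∧
        B.length % q = (2 * r + 2 + t * (s + 2 * r + 2)) % q ∧
        IPath F (f h x :: (B ++ [f h' x'])) ∧
        Sup I f U' (fun l => l = h ∨ l = h' ∨ ∃ j < 3 * t, l = G j) B ∧
        (∀ u ∈ U', u.2 ∈ Q u.1 ∧ (u.1 = h ∨ u.1 = h' ∨ ∃ j < 3 * t, u.1 = G j)) ∧
        ∀ u' ∈ U', ∀ u ∈ U, u'.1 ≠ u.1 → ¬ F.Adj (f u'.1 u'.2) (f u.1 u.2) := by
  have H := S.sys.hubs
  have hn' : (1 : ℝ) ≤ n := by exact_mod_cast hn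
  induction t with
  | zero =>
    intro K U h x h' x' G hsmall hU hK hne hx hx' hxU hxU' hxx hG hfresh
    have hKK : (U.card : ℝ) ≤ K := by exact_mod_cast hK
    have hc : lam * n + U.card * (θ * n) ≤ ξ / (2 * q) * n := by
      have hsmall' : 4 * lam + (K + 5) * θ ≤ ξ / (2 * q) := by simpa using hsmall
      have h1 : (U.card : ℝ) * θ ≤ (K + 5) * θ :=
        mul_le_mul_of_nonneg_right (by linarith) hθ
      have h2 : lam + U.card * θ ≤ ξ / (2 * q) := by linarith
      calc lam * n + U.card * (θ * n) = (lam + U.card * θ) * n := by ring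
        _ ≤ ξ / (2 * q) * n := mul_le_mul_of_nonneg_right h2 (by linarith)
    obtain ⟨C, y, y', hy, hy', hlen, hpath, hsup, hfar, hfar'⟩ :=
      crossing S U hU hc hne hx hx' hxU hxU' hxx
    refine ⟨C, {(h, y), (h', y')}, ?_, ?_, hpath, ?_, ?_, ?_⟩
    · exact (card_insert_le _ _).trans (by simp)
    · rw [hlen]
      simp
    · refine hsup.mono subset_rfl fun l hl => ?_
      rcases hl with hl | hl
      · exact Or.inl hl
      · exact Or.inr (Or.inl hl)
    · intro u hu
      rw [mem_insert, mem_singleton] at hu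
      rcases hu with rfl | rfl
      · exact ⟨hy, Or.inl rfl⟩
      · exact ⟨hy', Or.inr (Or.inl rfl)⟩
    · intro u' hu' u hu hne'
      rw [mem_insert, mem_singleton] at hu'
      rcases hu' with rfl | rfl
      · exact hfar u hu (Ne.symm hne')
      · exact hfar' u hu (Ne.symm hne')
  | succ t ih =>
    intro K U h x h' x' G hsmall hU hK hne hx hx' hxU hxU' hxx hG hfresh
    have hKK : (U.card : ℝ) ≤ K := by exact_mod_cast hK
    have ht0 : (0 : ℝ) ≤ t := Nat.cast_nonneg t
    push_cast at hsmall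
    -- the connector
    let g : Fin 3 → Λ := fun κ => G (3 * t + κ)
    have hg : Function.Injective g := by
      intro κ κ' he
      have := hG (3 * t + κ) (3 * t + κ') (by omega) (by omega) he
      exact Fin.ext (by omega)
    have hgfresh : ∀ u ∈ U, ∀ κ, u.1 ≠ g κ := fun u hu κ => hfresh u hu _ (by omega)
    have hgG : ∀ κ, ∀ j < 3 * t, g κ ≠ G j := fun κ j hj he => by
      have := hG (3 * t + κ) j (by omega) (by omega) he
      omega
    have hsm1 : 4 * lam + (K + 5) * θ ≤ ξ / (2 * q) := by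
      have : ((K : ℝ) + 5) * θ ≤ (K + 5 * (t + 1) + 5) * θ :=
        mul_le_mul_of_nonneg_right (by linarith) hθ
      linarith
    obtain ⟨i, j, k, z, z', M, T, hij, hki, hkj, hz, hz', hM, hTc, hTQ, hMT, hMpath, hzfar,
      hzfar', hTfar⟩ := connector S hn hlam hθ hsm1 U hU hK g hg hgfresh hs
    have hgij : g i ≠ g j := fun he => hij (hg he)
    have hgki : g k ≠ g i := fun he => hki (hg he)
    have hgkj : g k ≠ g j := fun he => hkj (hg he)
    have hhg : ∀ κ, h ≠ g κ := fun κ => hgfresh _ hxU κ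
    have hhg' : ∀ κ, h' ≠ g κ := fun κ => hgfresh _ hxU' κ
    have hhG : ∀ j < 3 * t, h ≠ G j := fun j hj => hfresh _ hxU j (by omega)
    -- the crossing
    let U₁ : Finset (Λ × V) := U ∪ ({(g i, z), (g j, z')} ∪ T)
    have hU₁ : ∀ u ∈ U₁, u.2 ∈ Q u.1 := by
      intro u hu
      simp only [U₁, mem_union, mem_insert, mem_singleton] at hu
      rcases hu with hu | (rfl | rfl) | hu
      · exact hU u hu
      · exact S.sub _ hz
      · exact S.sub _ hz'
      · exact (hTQ u hu).1
    have hU₁c : U₁.card ≤ K + 3 := by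
      refine (card_union_le _ _).trans ?_
      have h1 := card_union_le ({(g i, z), (g j, z')} : Finset (Λ × V)) T
      have h2 : ({(g i, z), (g j, z')} : Finset (Λ × V)).card ≤ 2 :=
        (card_insert_le _ _).trans (by simp)
      omega
    have hc : lam * n + U₁.card * (θ * n) ≤ ξ / (2 * q) * n := by
      have h0 : (U₁.card : ℝ) ≤ K + 3 := by exact_mod_cast hU₁c
      have h1 : (U₁.card : ℝ) * θ ≤ (K + 5) * θ :=
        mul_le_mul_of_nonneg_right (by linarith) hθ
      have h2 : lam + U₁.card * θ ≤ ξ / (2 * q) := by linarith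
      calc lam * n + U₁.card * (θ * n) = (lam + U₁.card * θ) * n := by ring
        _ ≤ ξ / (2 * q) * n := mul_le_mul_of_nonneg_right h2 (by linarith)
    have hzU₁ : (g i, z) ∈ U₁ := by simp [U₁]
    have hzU₁' : (g j, z') ∈ U₁ := by simp [U₁]
    have hUU₁ : U ⊆ U₁ := subset_union_left
    have hTU₁ : T ⊆ U₁ := subset_union_right.trans subset_union_right
    obtain ⟨C, y, y', hy, hy', hClen, hCpath, hCsup, hyfar, hyfar'⟩ :=
      crossing S U₁ hU₁ hc (hhg i) hx hz (hUU₁ hxU) hzU₁
        (fun hh => hzfar _ hxU hh.symm)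
    -- the rest
    let U₂ : Finset (Λ × V) := U₁ ∪ {(h, y), (g i, y')}
    have hU₂ : ∀ u ∈ U₂, u.2 ∈ Q u.1 := by
      intro u hu
      simp only [U₂, mem_union, mem_insert, mem_singleton] at hu
      rcases hu with hu | rfl | rfl
      · exact hU₁ u hu
      · exact hy
      · exact hy'
    have hU₂c : U₂.card ≤ K + 5 := by
      refine (card_union_le _ _).trans ?_
      have h2 : ({(h, y), (g i, y')} : Finset (Λ × V)).card ≤ 2 :=
        (card_insert_le _ _).trans (by simp)
      omega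
    have hU₁₂ : U₁ ⊆ U₂ := subset_union_left
    obtain ⟨B, U', hU'c, hBlen, hBpath, hBsup, hU'Q, hU'far⟩ := ih (K + 5) U₂ (g j) z' h' x' G
      (by push_cast; linarith) hU₂ hU₂c (hhg' j).symm hz' hx' (hU₁₂ hzU₁') (hU₁₂ (hUU₁ hxU'))
      (hzfar' _ hxU') (fun a b ha hb => hG a b (by omega) (by omega)) (by
        intro u hu a ha
        simp only [U₂, U₁, mem_union, mem_insert, mem_singleton] at hu
        rcases hu with (hu | (rfl | rfl) | hu) | rfl | rfl
        · exact hfresh u hu a (by omega)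
        · exact hgG i a ha
        · exact hgG j a ha
        · rw [(hTQ u hu).2]
          exact hgG k a ha
        · exact hhG a ha
        · exact hgG i a ha)
    have hMsup : ∀ N, Sup I f T N M := fun N v hv => by
      obtain ⟨u, hu, he⟩ := hMT v hv
      exact Or.inl ⟨u, hu, he⟩
    have hhy : ∀ u ∈ U₁, u.1 ≠ h → ¬ F.Adj (f h y) (f u.1 u.2) := hyfar
    -- first gluing
    have hpath1 : IPath F ((f h x :: C) ++ f (g i) z :: (M ++ [f (g j) z'])) := by
      refine ipath_glue (by simpa using hCpath) hMpath ?_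
      refine antiL_of_sup (T := {(h, x), (h, y), (g i, y')}) (T' := insert (g j, z') T)
        (N := fun l => l = h ∨ l = g i) (N' := fun l => l = g j ∨ l = g k) H ?_ ?_ ?_ ?_ ?_ ?_
      · refine Sup.cons (u := (h, x)) (by simp) (hCsup.mono ?_ fun l hl => hl)
        intro u hu
        rw [mem_insert] 
        exact Or.inr hu
      · refine ((hMsup _).mono (subset_insert _ _) fun l hl => hl).append ?_
        exact Sup.cons (u := (g j, z')) (mem_insert_self _ _) Sup.nil
      · intro u hu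
        simp only [mem_insert, mem_singleton] at hu
        rcases hu with rfl | rfl | rfl
        · exact ⟨S.sub _ hx, Or.inl rfl⟩
        · exact ⟨hy, Or.inl rfl⟩
        · exact ⟨hy', Or.inr rfl⟩
      · intro u hu
        rcases mem_insert.1 hu with rfl | hu
        · exact ⟨S.sub _ hz', Or.inl rfl⟩
        · exact ⟨(hTQ u hu).1, Or.inr (hTQ u hu).2⟩
      · rintro l (rfl | rfl) (he | he)
        · exact hhg _ he
        · exact hhg _ he
        · exact hgij he
        · exact hgki he.symm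
      · intro u hu u' hu'
        have hu'1 : u' ∈ U₁ := by
          rcases mem_insert.1 hu' with rfl | hu'
          · exact hzU₁'
          · exact hTU₁ hu'
        have hu'h : u'.1 ≠ h := by
          rcases mem_insert.1 hu' with rfl | hu'
          · exact (hhg j).symm
          · rw [(hTQ u' hu').2]
            exact (hhg k).symm
        have hu'i : u'.1 ≠ g i := by
          rcases mem_insert.1 hu' with rfl | hu'
          · exact hgij.symm
          · rw [(hTQ u' hu').2]
            exact hgki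
        simp only [mem_insert, mem_singleton] at hu
        rcases hu with rfl | rfl | rfl
        · rcases mem_insert.1 hu' with rfl | hu'
          · exact fun hh => hzfar' _ hxU hh.symm
          · exact fun hh => hTfar _ hu' _ hxU hh.symm
        · exact hyfar u' hu'1 hu'h
        · exact hyfar' u' hu'1 hu'i
    have hpath2 : IPath F ((f h x :: C ++ f (g i) z :: M) ++
        f (g j) z' :: (B ++ [f h' x'])) := by
      refine ipath_glue (by simpa using hpath1) hBpath ?_
      refine antiL_of_sup (T := {(h, x), (h, y), (g i, y'), (g i, z)} ∪ T)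
        (T' := insert (h', x') U') (N := fun l => l = h ∨ l = g i ∨ l = g k)
        (N' := fun l => l = g j ∨ l = h' ∨ ∃ a < 3 * t, l = G a) H ?_ ?_ ?_ ?_ ?_ ?_
      · refine Sup.append (Sup.cons (u := (h, x)) (by simp) (hCsup.mono ?_ ?_)) ?_
        · intro u hu
          simp only [mem_union, mem_insert, mem_singleton] at hu ⊢
          tauto
        · rintro l (hl | hl)
          · exact Or.inl hl
          · exact Or.inr (Or.inl hl)
        · exact Sup.cons (u := (g i, z)) (by simp) ((hMsup _).mono subset_union_right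
            fun l hl => hl)
      · refine Sup.append (hBsup.mono (subset_insert _ _) fun l hl => hl) ?_
        exact Sup.cons (u := (h', x')) (mem_insert_self _ _) Sup.nil
      · intro u hu
        simp only [mem_union, mem_insert, mem_singleton] at hu
        rcases hu with (rfl | rfl | rfl | rfl) | hu
        · exact ⟨S.sub _ hx, Or.inl rfl⟩
        · exact ⟨hy, Or.inl rfl⟩
        · exact ⟨hy', Or.inr (Or.inl rfl)⟩
        · exact ⟨S.sub _ hz, Or.inr (Or.inl rfl)⟩
        · exact ⟨(hTQ u hu).1, Or.inr (Or.inr (hTQ u hu).2)⟩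
      · intro u hu
        rcases mem_insert.1 hu with rfl | hu
        · exact ⟨S.sub _ hx', Or.inr (Or.inl rfl)⟩
        · exact hU'Q u hu
      · rintro l (rfl | rfl | rfl) (he | he | ⟨a, ha, he⟩)
        · exact hhg _ he
        · exact hne he
        · exact hhG a ha he
        · exact hgij he
        · exact hhg' i he.symm
        · exact hgG i a ha he
        · exact hgkj he
        · exact hhg' k he.symm
        · exact hgG k a ha he
      · intro u hu u' hu'
        have hu1 : u.1 = h ∨ u.1 = g i ∨ u.1 = g k := by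
          simp only [mem_union, mem_insert, mem_singleton] at hu
          rcases hu with (rfl | rfl | rfl | rfl) | hu
          · exact Or.inl rfl
          · exact Or.inl rfl
          · exact Or.inr (Or.inl rfl)
          · exact Or.inr (Or.inl rfl)
          · exact Or.inr (Or.inr (hTQ u hu).2)
        have huU₂ : u ∈ U₂ := by
          simp only [mem_union, mem_insert, mem_singleton] at hu
          rcases hu with (rfl | rfl | rfl | rfl) | hu
          · exact hU₁₂ (hUU₁ hxU)
          · simp [U₂]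
          · simp [U₂]
          · exact hU₁₂ hzU₁
          · exact hU₁₂ (hTU₁ hu)
        rcases mem_insert.1 hu' with rfl | hu'
        · simp only [mem_union, mem_insert, mem_singleton] at hu
          rcases hu with (rfl | rfl | rfl | rfl) | hu
          · exact hxx
          · exact hyfar _ (hUU₁ hxU') hne.symm
          · exact hyfar' _ (hUU₁ hxU') (hhg' i)
          · exact hzfar _ hxU'
          · exact hTfar _ hu _ hxU'
        · refine fun hh => hU'far u' hu' u huU₂ ?_ hh.symm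
          intro he
          have h2 := (hU'Q u' hu').2
          rw [he] at h2
          rcases hu1 with hu1 | hu1 | hu1 <;> rw [hu1] at h2 <;>
            rcases h2 with h2 | h2 | ⟨a, ha, h2⟩
          · exact hhg _ h2
          · exact hne h2
          · exact hhG a ha h2
          · exact hgij h2
          · exact hhg' i h2.symm
          · exact hgG i a ha h2
          · exact hgkj h2
          · exact hhg' k h2.symm
          · exact hgG k a ha h2
    refine ⟨C ++ f (g i) z :: (M ++ f (g j) z' :: B),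
      {(h, y), (g i, y')} ∪ ({(g i, z), (g j, z')} ∪ T) ∪ U', ?_, ?_, ?_, ?_, ?_, ?_⟩
    · have h1 := card_union_le ({(g i, z), (g j, z')} : Finset (Λ × V)) T
      have h2 : ({(g i, z), (g j, z')} : Finset (Λ × V)).card ≤ 2 :=
        (card_insert_le _ _).trans (by simp)
      have h3 : ({(h, y), (g i, y')} : Finset (Λ × V)).card ≤ 2 :=
        (card_insert_le _ _).trans (by simp)
      have h4 := card_union_le ({(h, y), (g i, y')} : Finset (Λ × V))
        ({(g i, z), (g j, z')} ∪ T)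
      have h5 := card_union_le ({(h, y), (g i, y')} ∪ ({(g i, z), (g j, z')} ∪ T)) U'
      omega
    · have e1 : (C ++ f (g i) z :: (M ++ f (g j) z' :: B)).length =
          C.length + (B.length + s) := by
        simp only [List.length_append, List.length_cons]
        omega
      have e2 : (B.length + s) % q = (2 * r + 2 + t * (s + 2 * r + 2) + s) % q := by
        rw [Nat.add_mod, hBlen, ← Nat.add_mod]
      rw [e1, Nat.add_mod, hClen, e2, ← Nat.add_mod]
      congr 1
      ring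
    · simpa using hpath2
    · intro v hv
      simp only [List.mem_append, List.mem_cons] at hv
      rcases hv with hv | rfl | hv | rfl | hv
      · rcases hCsup v hv with ⟨u, hu, he⟩ | ⟨l, hl, he⟩
        · exact Or.inl ⟨u, by
            simp only [mem_union, mem_insert, mem_singleton] at hu ⊢
            tauto, he⟩
        · refine Or.inr ⟨l, ?_, he⟩
          rcases hl with rfl | rfl
          · exact Or.inl rfl
          · exact Or.inr (Or.inr ⟨3 * t + i, by omega, rfl⟩)
      · exact Or.inl ⟨(g i, z), by simp, rfl⟩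
      · obtain ⟨u, hu, he⟩ := hMT v hv
        exact Or.inl ⟨u, by simp [hu], he⟩
      · exact Or.inl ⟨(g j, z'), by simp, rfl⟩
      · rcases hBsup v hv with ⟨u, hu, he⟩ | ⟨l, hl, he⟩
        · exact Or.inl ⟨u, by simp [hu], he⟩
        · refine Or.inr ⟨l, ?_, he⟩
          rcases hl with rfl | rfl | ⟨a, ha, rfl⟩
          · exact Or.inr (Or.inr ⟨3 * t + j, by omega, rfl⟩)
          · exact Or.inr (Or.inl rfl)
          · exact Or.inr (Or.inr ⟨a, by omega, rfl⟩)
    · intro u hu
      simp only [mem_union, mem_insert, mem_singleton] at hu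
      rcases hu with ((rfl | rfl) | (rfl | rfl) | hu) | hu
      · exact ⟨hy, Or.inl rfl⟩
      · exact ⟨hy', Or.inr (Or.inr ⟨3 * t + i, by omega, rfl⟩)⟩
      · exact ⟨S.sub _ hz, Or.inr (Or.inr ⟨3 * t + i, by omega, rfl⟩)⟩
      · exact ⟨S.sub _ hz', Or.inr (Or.inr ⟨3 * t + j, by omega, rfl⟩)⟩
      · exact ⟨(hTQ u hu).1, Or.inr (Or.inr ⟨3 * t + k, by omega, (hTQ u hu).2⟩)⟩
      · refine ⟨(hU'Q u hu).1, ?_⟩
        rcases (hU'Q u hu).2 with he | he | ⟨a, ha, he⟩
        · exact Or.inr (Or.inr ⟨3 * t + j, by omega, he⟩)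
        · exact Or.inr (Or.inl he)
        · exact Or.inr (Or.inr ⟨a, by omega, he⟩)
    · intro u' hu' u hu hne'
      simp only [mem_union, mem_insert, mem_singleton] at hu'
      rcases hu' with ((rfl | rfl) | (rfl | rfl) | hu') | hu'
      · exact hyfar u (hUU₁ hu) hne'.symm
      · exact hyfar' u (hUU₁ hu) hne'.symm
      · exact hzfar u hu
      · exact hzfar' u hu
      · exact hTfar u' hu' u hu
      · exact hU'far u' hu' u (hU₁₂ (hUU₁ hu)) hne'

end basic

/-- the arithmetic: every residue is reached -/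
theorem exists_count (q r : ℕ) (hq : q = 2 ∨ q = 3) (hr : r < q) (τ : ℕ) :
    ∃ s t : ℕ, (s = 2 ∨ s = 3) ∧ t ≤ 2 ∧
      (2 * r + 2 + t * (s + 2 * r + 2)) % q = τ % q := by
  rcases hq with rfl | rfl
  · refine ⟨3, τ % 2, Or.inr rfl, by omega, ?_⟩
    have h1 : τ % 2 = 0 ∨ τ % 2 = 1 := by omega
    rcases h1 with h1 | h1 <;> rw [h1] <;> omega
  · have hτ : τ % 3 = 0 ∨ τ % 3 = 1 ∨ τ % 3 = 2 := by omega
    have hr' : r = 0 ∨ r = 1 ∨ r = 2 := by omega
    rcases hr' with rfl | rfl | rfl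
    · rcases hτ with h | h | h <;> rw [h]
      · exact ⟨2, 1, Or.inl rfl, by norm_num, by norm_num⟩
      · exact ⟨2, 2, Or.inl rfl, by norm_num, by norm_num⟩
      · exact ⟨2, 0, Or.inl rfl, by norm_num, by norm_num⟩
    · rcases hτ with h | h | h <;> rw [h]
      · exact ⟨3, 2, Or.inr rfl, by norm_num, by norm_num⟩
      · exact ⟨3, 0, Or.inr rfl, by norm_num, by norm_num⟩
      · exact ⟨3, 1, Or.inr rfl, by norm_num, by norm_num⟩
    · rcases hτ with h | h | h <;> rw [h]
      · exact ⟨2, 0, Or.inl rfl, by norm_num, by norm_num⟩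
      · exact ⟨2, 2, Or.inl rfl, by norm_num, by norm_num⟩
      · exact ⟨2, 1, Or.inl rfl, by norm_num, by norm_num⟩

end Pool.Agent.Helper12.PD

namespace Pool.Agent.Helper32.PD

open Finset
open scoped Classical
open Pool.Agent.Helper12.PD

variable {V : Type}

/-- A link between two references with prescribed residue, through `3 q` fresh hubs. -/
theorem exists_link (F : SimpleGraph V) {Λ : Type} (I Q Qs : Λ → Finset V) (f : Λ → V → V)
    (q r : ℕ) (hq : q = 2 ∨ q = 3) (hr : r < q) (ξ lam θ : ℝ) (n K : ℕ) (hn : 1 ≤ n)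
    (hlam : 0 < lam) (S : Sys1r F I Q Qs f q r ξ lam θ n)
    (hsmall : 4 * lam + (K + 50) * θ ≤ ξ / (2 * q)) (U : Finset (Λ × V))
    (hU : ∀ u ∈ U, u.2 ∈ Q u.1) (hK : U.card ≤ K) (h h' : Λ) (hne : h ≠ h') (x x' : V)
    (hx : x ∈ Qs h) (hx' : x' ∈ Qs h') (hxU : (h, x) ∈ U) (hxU' : (h', x') ∈ U)
    (hxx : ¬ F.Adj (f h x) (f h' x'))
    (hone : ∀ u ∈ U, u.1 = h → u.2 = x) (hone' : ∀ u ∈ U, u.1 = h' → u.2 = x')
    (G : Fin 9 → Λ) (hG : Function.Injective G) (hfresh : ∀ u ∈ U, ∀ j, u.1 ≠ G j)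
    (hGh : ∀ j, G j ≠ h ∧ G j ≠ h') (τ : ℕ) :
    ∃ (B : List V) (U' : Finset (Λ × V)), U'.card ≤ 50 ∧ B.length % q = τ % q ∧
      IPath F (f h x :: (B ++ [f h' x'])) ∧
      (∀ v ∈ B, (∃ u ∈ U', v = f u.1 u.2) ∨ v ∈ I h ∨ v ∈ I h' ∨ ∃ j, v ∈ I (G j)) ∧
      (∀ u ∈ U', u.2 ∈ Q u.1 ∧ (u.1 = h ∨ u.1 = h' ∨ ∃ j, u.1 = G j)) ∧
      ∀ u' ∈ U', ∀ u ∈ U, u'.1 ≠ u.1 →
        f u'.1 u'.2 ≠ f u.1 u.2 ∧ ¬ F.Adj (f u'.1 u'.2) (f u.1 u.2) := by
  have H := S.sys.hubs
  have hn' : (1 : ℝ) ≤ n := by exact_mod_cast hn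
  have hθ : 0 ≤ θ := by
    have h1 := le_trans (Nat.cast_nonneg _) (S.sys.single h x (S.sub h hx))
    by_contra h2
    push Not at h2
    have := mul_neg_of_neg_of_pos h2 (lt_of_lt_of_le one_pos hn')
    linarith
  obtain ⟨s, t, hs, ht, hcount⟩ := exists_count q r hq hr τ
  have ht' : (t : ℝ) ≤ 2 := by exact_mod_cast ht
  have h3t : ∀ j, j < 3 * t → j < 9 := fun j hj => by omega
  obtain ⟨B, U', hc, hlen, hpath, hsup, hQ, hfar⟩ := chain S hn hlam hθ hs t K U h x h' x'
    (fun j => if hj : j < 9 then G ⟨j, hj⟩ else h) (by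
      have : ((K : ℝ) + 5 * t + 5) * θ ≤ (K + 50) * θ :=
        mul_le_mul_of_nonneg_right (by linarith) hθ
      linarith) hU hK hne hx hx' hxU hxU' hxx (by
      intro a b ha hb he
      rw [dif_pos (h3t a ha), dif_pos (h3t b hb)] at he
      have := hG he
      simpa using this) (by
      intro u hu a ha
      rw [dif_pos (h3t a ha)]
      exact hfresh u hu _)
  refine ⟨B, U', by omega, by rw [hlen, hcount], hpath, ?_, ?_, ?_⟩
  · intro v hv
    rcases hsup v hv with hu | ⟨l, hl, he⟩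
    · exact Or.inl hu
    · rcases hl with rfl | rfl | ⟨a, ha, rfl⟩
      · exact Or.inr (Or.inl he)
      · exact Or.inr (Or.inr (Or.inl he))
      · rw [dif_pos (h3t a ha)] at he
        exact Or.inr (Or.inr (Or.inr ⟨_, he⟩))
  · intro u hu
    refine ⟨(hQ u hu).1, ?_⟩
    rcases (hQ u hu).2 with he | he | ⟨a, ha, he⟩
    · exact Or.inl he
    · exact Or.inr (Or.inl he)
    · rw [dif_pos (h3t a ha)] at he
      exact Or.inr (Or.inr ⟨_, he⟩)
  · intro u' hu' u hu hne'
    exact ⟨leaf_ne H hne' (hQ u' hu').1 (hU u hu), hfar u' hu' u hu hne'⟩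

end Pool.Agent.Helper32.PD
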